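import Pool.Agent.Q23.PP.Stm

/-!
# Project PP (helper23), job DUAL2: the dual of an exact complex is exact
-/

set_option autoImplicit false

open scoped Matrix

namespace Pool.Agent.Q139.PP

open Pool.Agent.Q23.PP
open Pool.Agent.H919R4.ZS (FinRes toRed RedC augm)
open Pool.Agent.TH38.CX (Res ExR PM Triv sumMap Bdd)
open Pool.Agent.TH38.ZT (ExAt)
open Pool.Agent.Q169.PT.Du (sg dm')

noncomputable section

variable {S : Type} [Ring S]

/-- the transposed matrix with `τ` applied -/
def st (τ : S →+ S) {a b : ℕ} (M : Matrix (Fin a) (Fin b) S) : Matrix (Fin b) (Fin a) S :=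
  fun j k => τ (M k j)

theorem st_mul (τ : S →+ S) (hτ : ∀ x y, τ (x * y) = τ y * τ x) {a b c : ℕ}
    (M : Matrix (Fin a) (Fin b) S) (N : Matrix (Fin b) (Fin c) S) :
    st τ (M * N) = st τ N * st τ M := by
  ext j k
  simp only [st, Matrix.mul_apply, map_sum, hτ]

theorem st_add (τ : S →+ S) {a b : ℕ} (M N : Matrix (Fin a) (Fin b) S) :
    st τ (M + N) = st τ M + st τ N := by
  ext j k
  simp only [st, Matrix.add_apply, map_add]

theorem st_one (τ : S →+ S) (h1 : τ 1 = 1) {a : ℕ} :
    st τ (1 : Matrix (Fin a) (Fin a) S) = 1 := by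
  ext j k
  simp only [st, Matrix.one_apply]
  by_cases h : j = k
  · subst h
    simp [h1]
  · rw [if_neg h, if_neg (fun h' => h h'.symm), map_zero]

theorem st_dm {G : Type} [Group G] (w : G →* ℤˣ) (φ : MonoidAlgebra ℤ G →+* S) (τ : S →+ S)
    (hφ : ∀ a, τ (φ a) = φ (sg w a)) {a b : ℕ} (D : Matrix (Fin a) (Fin b) (MonoidAlgebra ℤ G)) :
    st τ (D.map φ) = (dm' w D).map φ := by
  ext j k
  simp only [st, Matrix.map_apply, dm', hφ]

theorem dual2 : S_dual2 := by
  intro G _ X k hX w M _ _ R q hR S _ φ τ hmul hone hsg hex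
  obtain ⟨s, hs0, hs⟩ := Pool.Agent.TH38.ZT.contraction' X φ (k + 1) (fun i _ => hex i)
  -- the dual contraction
  have ht0 : (dm' w (X.d 0)).map φ * st τ (s 0) = 1 := by
    rw [← st_dm w φ τ hsg, ← st_mul τ hmul, hs0, st_one τ hone]
  have ht : ∀ i, i ≤ k → st τ (s i) * (dm' w (X.d i)).map φ +
      (dm' w (X.d (i + 1))).map φ * st τ (s (i + 1)) = 1 := by
    intro i hi
    rw [← st_dm w φ τ hsg, ← st_dm w φ τ hsg, ← st_mul τ hmul, ← st_mul τ hmul, ← st_add,
      hs i (by omega), st_one τ hone]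
  have htk : st τ (s k) * (dm' w (X.d k)).map φ = 1 := by
    have h1 := ht k le_rfl
    have h2 : (dm' w (X.d (k + 1))).map φ * st τ (s (k + 1)) = 0 := by
      have : IsEmpty (Fin (X.n (k + 1 + 1))) := by
        rw [hX (k + 1 + 1) (by omega)]
        infer_instance
      ext a b
      rw [Matrix.mul_apply, Matrix.zero_apply]
      exact Finset.sum_eq_zero fun j _ => (this.false j).elim
    rw [h2, add_zero] at h1
    exact h1
  have hmap : ∀ (i l : ℕ) (h : l + i = k), (R.d i).map φ =
      ((dm' w (X.d l)).map φ).submatrix (q (i + 1) l (by omega)) (q i (l + 1) (by omega)) := by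
    intro i l h
    rw [hR.d i l h]
    rfl
  intro i
  cases i with
  | zero =>
    intro x
    refine ⟨((x ∘ (q 0 (k + 1) (by omega)).symm) ᵥ* st τ (s k)) ∘ (q 1 k (by omega)), ?_⟩
    rw [hmap 0 k (by omega), Matrix.submatrix_vecMul_equiv]
    have e1 : ((((x ∘ (q 0 (k + 1) (by omega)).symm) ᵥ* st τ (s k)) ∘ (q 1 k (by omega))) ∘
        (q (0 + 1) k (by omega)).symm) = (x ∘ (q 0 (k + 1) (by omega)).symm) ᵥ* st τ (s k) := by
      funext j
      simp only [Function.comp_apply, Nat.zero_add, Equiv.apply_symm_apply]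
    rw [e1, Matrix.vecMul_vecMul, htk, Matrix.vecMul_one]
    funext j
    simp only [Function.comp_apply, Equiv.symm_apply_apply]
  | succ i =>
    intro x hx
    rcases lt_trichotomy i k with hik | hik | hik
    · obtain ⟨l, hl⟩ : ∃ l, l + (i + 1) = k := ⟨k - (i + 1), by omega⟩
      set x' : Fin (X.n (l + 1)) → S := x ∘ (q (i + 1) (l + 1) (by omega)).symm with hx'
      have h1 : x' ᵥ* (dm' w (X.d (l + 1))).map φ = 0 := by
        rw [hmap i (l + 1) (by omega), Matrix.submatrix_vecMul_equiv] at hx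
        funext j
        have := congrFun hx ((q i (l + 1 + 1) (by omega)).symm j)
        simpa using this
      have h2 : (x' ᵥ* st τ (s l)) ᵥ* (dm' w (X.d l)).map φ = x' := by
        have h3 := ht l (by omega)
        calc (x' ᵥ* st τ (s l)) ᵥ* (dm' w (X.d l)).map φ
            = x' ᵥ* (st τ (s l) * (dm' w (X.d l)).map φ) := by rw [Matrix.vecMul_vecMul]
          _ = x' ᵥ* (st τ (s l) * (dm' w (X.d l)).map φ) +
              (x' ᵥ* (dm' w (X.d (l + 1))).map φ) ᵥ* st τ (s (l + 1)) := by
              rw [h1, Matrix.zero_vecMul, add_zero]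
          _ = x' ᵥ* (st τ (s l) * (dm' w (X.d l)).map φ +
              (dm' w (X.d (l + 1))).map φ * st τ (s (l + 1))) := by
              rw [Matrix.vecMul_vecMul, Matrix.vecMul_add]
          _ = x' := by rw [h3, Matrix.vecMul_one]
      refine ⟨(x' ᵥ* st τ (s l)) ∘ (q (i + 1 + 1) l (by omega)), ?_⟩
      rw [hmap (i + 1) l (by omega), Matrix.submatrix_vecMul_equiv]
      have e1 : ((x' ᵥ* st τ (s l)) ∘ (q (i + 1 + 1) l (by omega))) ∘
          (q (i + 1 + 1) l (by omega)).symm = x' ᵥ* st τ (s l) := by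
        funext j
        simp only [Function.comp_apply, Equiv.apply_symm_apply]
      rw [e1, h2, hx']
      funext j
      simp only [Function.comp_apply, Equiv.symm_apply_apply]
    · subst hik
      set x' : Fin (X.n 0) → S := x ∘ (q (i + 1) 0 (by omega)).symm with hx'
      have h1 : x' ᵥ* (dm' w (X.d 0)).map φ = 0 := by
        rw [hmap i 0 (by omega), Matrix.submatrix_vecMul_equiv] at hx
        funext j
        have := congrFun hx ((q i (0 + 1) (by omega)).symm j)
        simpa using this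
      have h2 : x' = 0 := by
        calc x' = x' ᵥ* ((dm' w (X.d 0)).map φ * st τ (s 0)) := by rw [ht0, Matrix.vecMul_one]
          _ = (x' ᵥ* (dm' w (X.d 0)).map φ) ᵥ* st τ (s 0) := by rw [Matrix.vecMul_vecMul]
          _ = 0 := by rw [h1, Matrix.zero_vecMul]
      refine ⟨0, ?_⟩
      rw [Matrix.zero_vecMul]
      funext j
      have h3 := congrFun h2 (q (i + 1) 0 (by omega) j)
      rw [hx', Function.comp_apply, Equiv.symm_apply_apply] at h3
      rw [h3]
      rfl
    · have hem := hR.empty (i + 1) (by omega)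
      refine ⟨0, ?_⟩
      funext j
      exact (hem.false j).elim

end

end Pool.Agent.Q139.PP
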